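import Mathlib

/-!
# The variational Hodge conjecture and numerical equivalence on a compactification
-/

open Module

namespace Pool.Agent.V8H91.ND

universe u v w

/-- The cohomological data of a family of categories (an `S`-linear admissible subcategory `𝒞` of
`D_perf(X)`, `X → S`), with a smooth proper compactification `X̄` of `X`. `P` is the set of the
points of `S`, `F` the space of the global sections of the local system of the rational
topological K-theory of the fibres of `𝒞`, and `K` the rational topological K-theory of `X̄`. -/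
structure FamilyData (P : Type u) (F : Type v) (K : Type w) [AddCommGroup F] [Module ℚ F]
    [AddCommGroup K] [Module ℚ K] where
  /-- the Euler form on the global sections -/
  χ : F →ₗ[ℚ] F →ₗ[ℚ] ℚ
  /-- the global sections which are algebraic at the point `p` -/
  alg : P → Submodule ℚ F
  /-- the Euler form of `X̄` -/
  ψ : K →ₗ[ℚ] K →ₗ[ℚ] ℚ
  /-- the algebraic classes of `X̄` -/
  algTot : Submodule ℚ K
  /-- restriction to the fibres and projection to `𝒞` -/
  res : K →ₗ[ℚ] F
  /-- the map given by the right adjoint functor `𝒞_s → D_perf(X_s) → D_perf(X̄)` -/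
  gys : F →ₗ[ℚ] K

variable {P : Type u} {F : Type v} {K : Type w} [AddCommGroup F] [Module ℚ F] [AddCommGroup K]
  [Module ℚ K]

/-- The classical properties of these data. -/
structure IsFamily (D : FamilyData P F K) : Prop where
  /-- adjunction -/
  adj : ∀ x φ, D.ψ x (D.gys φ) = D.χ (D.res x) φ
  /-- the Euler form is nondegenerate on the global sections (semisimplicity of the monodromy) -/
  nondeg : ∀ φ, (∀ φ', D.χ φ' φ = 0) → φ = 0
  /-- the theorem on global invariant cycles -/
  surj : Function.Surjective D.res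
  /-- the restriction of an algebraic class is algebraic at all points -/
  res_mem : ∀ x ∈ D.algTot, ∀ p, D.res x ∈ D.alg p
  /-- the direct image of an algebraic class is algebraic -/
  gys_mem : ∀ p, ∀ φ ∈ D.alg p, D.gys φ ∈ D.algTot
  /-- a section which is algebraic at all points is the restriction of an algebraic class -/
  spread : ∀ φ, (∀ p, φ ∈ D.alg p) → ∃ x ∈ D.algTot, D.res x = φ

namespace FamilyData

variable (D : FamilyData P F K)

/-- the global sections which are algebraic at all points -/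
def everywhere : Submodule ℚ F := ⨅ p, D.alg p

/-- The numerically trivial algebraic classes of `X̄`. -/
def numTriv : Submodule ℚ K where
  carrier := {x | x ∈ D.algTot ∧ ∀ y ∈ D.algTot, D.ψ y x = 0}
  zero_mem' := ⟨D.algTot.zero_mem, fun y _ => map_zero _⟩
  add_mem' := fun ha hb => ⟨D.algTot.add_mem ha.1 hb.1, fun y hy => by
    rw [map_add, ha.2 y hy, hb.2 y hy, add_zero]⟩
  smul_mem' := fun c _ ha => ⟨D.algTot.smul_mem c ha.1, fun y hy => by
    rw [map_smul, ha.2 y hy, smul_zero]⟩

/-- The numerically trivial classes of `X̄` which are direct images of sections algebraic at `p`: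
they are represented by objects supported on the fibre at `p`. -/
def fibreNumTriv (p : P) : Submodule ℚ K := (D.alg p).map D.gys ⊓ D.numTriv

/-- The everywhere algebraic sections which are orthogonal to all sections algebraic at `p`. -/
def orthAt (p : P) : Submodule ℚ F where
  carrier := {φ | φ ∈ D.everywhere ∧ ∀ φ' ∈ D.alg p, D.χ φ φ' = 0}
  zero_mem' := ⟨D.everywhere.zero_mem, fun φ' _ => by rw [map_zero, LinearMap.zero_apply]⟩
  add_mem' := fun ha hb => ⟨D.everywhere.add_mem ha.1 hb.1, fun y hy => by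
    rw [map_add, LinearMap.add_apply, ha.2 y hy, hb.2 y hy, add_zero]⟩
  smul_mem' := fun c _ ha => ⟨D.everywhere.smul_mem c ha.1, fun y hy => by
    rw [map_smul, LinearMap.smul_apply, ha.2 y hy, smul_zero]⟩

/-- The variational Hodge conjecture at the point `p`: every global section which is algebraic at `p`
is algebraic at all points. -/
def VHC (p : P) : Prop := ∀ φ ∈ D.alg p, ∀ q, φ ∈ D.alg q

/-- The conjecture D (numerical and homological equivalence coincide) for the classes of `X̄` which
are direct images of global sections algebraic at `p`. -/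
def ConjDFibre (p : P) : Prop := D.fibreNumTriv p = ⊥

/-- The conjecture D for the generic fibre of `𝒞`: its rational K-theory is, up to homological
equivalence, the space of the everywhere algebraic sections. -/
def ConjDGeneric : Prop := ∀ φ ∈ D.everywhere, (∀ φ' ∈ D.everywhere, D.χ φ' φ = 0) → φ = 0

end FamilyData

theorem rank_flip {U W : Type*} [AddCommGroup U] [Module ℚ U] [AddCommGroup W] [Module ℚ W]
    [Module.Finite ℚ U] [Module.Finite ℚ W] (β : U →ₗ[ℚ] W →ₗ[ℚ] ℚ) :
    finrank ℚ (LinearMap.range β.flip) = finrank ℚ (LinearMap.range β) := by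
  have h1 : β.flip = (LinearMap.dualMap β) ∘ₗ (Module.evalEquiv ℚ W).toLinearMap := by
    ext w u
    rfl
  rw [h1, LinearMap.range_comp_of_range_eq_top _ (LinearEquiv.range _)]
  exact LinearMap.finrank_range_dualMap_eq_finrank_range β

variable {D : FamilyData P F K}

theorem gys_injective (h : IsFamily D) : Function.Injective D.gys := by
  rw [injective_iff_map_eq_zero]
  intro φ hφ
  refine h.nondeg φ fun φ' => ?_
  obtain ⟨x, rfl⟩ := h.surj φ'
  rw [← h.adj, hφ, map_zero]

theorem mem_everywhere {φ : F} : φ ∈ D.everywhere ↔ ∀ p, φ ∈ D.alg p := by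
  rw [FamilyData.everywhere, Submodule.mem_iInf]

theorem numTriv_iff (h : IsFamily D) {p : P} {φ : F} (hφ : φ ∈ D.alg p) :
    D.gys φ ∈ D.numTriv ↔ ∀ φ' ∈ D.everywhere, D.χ φ' φ = 0 := by
  constructor
  · intro hx φ' hφ'
    obtain ⟨x, hx1, rfl⟩ := h.spread φ' (mem_everywhere.1 hφ')
    rw [← h.adj]
    exact hx.2 x hx1
  · intro hx
    refine ⟨h.gys_mem p φ hφ, fun y hy => ?_⟩
    rw [h.adj]
    exact hx _ (mem_everywhere.2 (h.res_mem y hy))

/-- the dimension formula -/
theorem dim_formula [Module.Finite ℚ F] (h : IsFamily D) (p : P) :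
    finrank ℚ (D.alg p) + finrank ℚ (D.orthAt p) =
      finrank ℚ D.everywhere + finrank ℚ (D.fibreNumTriv p) := by
  let β : D.everywhere →ₗ[ℚ] D.alg p →ₗ[ℚ] ℚ := D.χ.domRestrict₁₂ D.everywhere (D.alg p)
  have h1 := rank_flip β
  have h2 := LinearMap.finrank_range_add_finrank_ker β
  have h3 := LinearMap.finrank_range_add_finrank_ker β.flip
  have h4 : finrank ℚ (LinearMap.ker β) = finrank ℚ (D.orthAt p) := by
    have e : (LinearMap.ker β).map D.everywhere.subtype = D.orthAt p := by
      ext φ
      rw [Submodule.mem_map]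
      constructor
      · rintro ⟨x, hx, rfl⟩
        refine ⟨x.2, fun φ' hφ' => ?_⟩
        exact congrArg (fun f => f ⟨φ', hφ'⟩) hx
      · rintro ⟨hφ, hφ'⟩
        refine ⟨⟨φ, hφ⟩, ?_, rfl⟩
        rw [LinearMap.mem_ker]
        ext ⟨y, hy⟩
        exact hφ' y hy
    rw [← e]
    exact (LinearEquiv.finrank_eq (Submodule.equivMapOfInjective _
      D.everywhere.injective_subtype _))
  have h5 : finrank ℚ (LinearMap.ker β.flip) = finrank ℚ (D.fibreNumTriv p) := by
    have e : (LinearMap.ker β.flip).map (D.gys ∘ₗ (D.alg p).subtype) = D.fibreNumTriv p := by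
      ext x
      rw [Submodule.mem_map]
      constructor
      · rintro ⟨y, hy, rfl⟩
        refine ⟨Submodule.mem_map_of_mem y.2, (numTriv_iff h y.2).2 fun φ' hφ' => ?_⟩
        exact congrArg (fun f => f ⟨φ', hφ'⟩) hy
      · rintro ⟨hx1, hx2⟩
        obtain ⟨y, hy, rfl⟩ := Submodule.mem_map.1 hx1
        refine ⟨⟨y, hy⟩, ?_, rfl⟩
        rw [LinearMap.mem_ker]
        ext ⟨φ', hφ'⟩
        exact (numTriv_iff h hy).1 hx2 φ' hφ'
    rw [← e]
    have hinj : Function.Injective (D.gys ∘ₗ (D.alg p).subtype) :=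
      (gys_injective h).comp Subtype.val_injective
    exact (LinearEquiv.finrank_eq (Submodule.equivMapOfInjective _ hinj _))
  omega

theorem vhc_iff_eq {p : P} : D.VHC p ↔ D.alg p = D.everywhere := by
  constructor
  · intro h
    exact le_antisymm (fun φ hφ => mem_everywhere.2 (h φ hφ)) (iInf_le _ p)
  · intro h φ hφ q
    rw [h] at hφ
    exact mem_everywhere.1 hφ q

theorem vhc_iff_dim [Module.Finite ℚ F] {p : P} :
    D.VHC p ↔ finrank ℚ (D.alg p) = finrank ℚ D.everywhere := by
  rw [vhc_iff_eq]
  constructor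
  · intro h
    rw [h]
  · intro h
    exact (Submodule.eq_of_le_of_finrank_eq (iInf_le _ p) h.symm).symm

theorem vhc_iff_res (h : IsFamily D) {p : P} : D.VHC p ↔ D.alg p = D.algTot.map D.res := by
  have h1 : D.everywhere = D.algTot.map D.res := by
    ext φ
    rw [mem_everywhere, Submodule.mem_map]
    constructor
    · exact h.spread φ
    · rintro ⟨x, hx, rfl⟩
      exact h.res_mem x hx
  rw [vhc_iff_eq, h1]

theorem conjD_iff [Module.Finite ℚ F] (h : IsFamily D) (p : P) :
    D.ConjDFibre p ↔ D.VHC p ∧ D.ConjDGeneric := by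
  constructor
  · intro h2
    constructor
    · rw [vhc_iff_dim]
      have h1 := dim_formula h p
      have h3 : finrank ℚ (D.fibreNumTriv p) = 0 := by
        rw [show D.fibreNumTriv p = ⊥ from h2, finrank_bot]
      have h4 : finrank ℚ D.everywhere ≤ finrank ℚ (D.alg p) :=
        Submodule.finrank_mono (iInf_le _ p)
      omega
    · intro φ hφ hφ'
      have hp : φ ∈ D.alg p := mem_everywhere.1 hφ p
      have h3 : D.gys φ ∈ D.fibreNumTriv p :=
        ⟨Submodule.mem_map_of_mem hp, (numTriv_iff h hp).2 hφ'⟩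
      rw [show D.fibreNumTriv p = ⊥ from h2, Submodule.mem_bot] at h3
      exact (injective_iff_map_eq_zero _).1 (gys_injective h) φ h3
  · rintro ⟨h2, h3⟩
    change D.fibreNumTriv p = ⊥
    rw [eq_bot_iff]
    rintro x ⟨hx1, hx2⟩
    obtain ⟨φ, hφ, rfl⟩ := Submodule.mem_map.1 hx1
    have h4 := h3 φ (mem_everywhere.2 (h2 φ hφ)) ((numTriv_iff h hφ).1 hx2)
    rw [Submodule.mem_bot, h4, map_zero]

theorem main [Module.Finite ℚ F] [Module.Finite ℚ K] (h : IsFamily D) (p : P) :
    (finrank ℚ (D.alg p) + finrank ℚ (D.orthAt p) =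
      finrank ℚ D.everywhere + finrank ℚ (D.fibreNumTriv p)) ∧
    finrank ℚ (D.alg p) ≤ finrank ℚ D.everywhere + finrank ℚ D.numTriv ∧
    (D.VHC p ↔ D.alg p = D.algTot.map D.res) ∧
    (D.VHC p ↔ finrank ℚ (D.fibreNumTriv p) = finrank ℚ (D.orthAt p)) ∧
    (D.ConjDFibre p ↔ D.VHC p ∧ D.ConjDGeneric) ∧
    (¬ D.VHC p → ∃ φ ∈ D.alg p, D.gys φ ≠ 0 ∧ D.gys φ ∈ D.numTriv) := by
  have h1 := dim_formula h p
  refine ⟨h1, ?_, vhc_iff_res h, ?_, conjD_iff h p, ?_⟩
  · have h2 : finrank ℚ (D.fibreNumTriv p) ≤ finrank ℚ D.numTriv :=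
      Submodule.finrank_mono inf_le_right
    omega
  · rw [vhc_iff_dim]
    omega
  · intro h2
    have h3 : D.fibreNumTriv p ≠ ⊥ := fun h3 => h2 ((conjD_iff h p).1 h3).1
    obtain ⟨x, hx, hx0⟩ := Submodule.exists_mem_ne_zero_of_ne_bot h3
    obtain ⟨φ, hφ, rfl⟩ := Submodule.mem_map.1 hx.1
    exact ⟨φ, hφ, hx0, hx.2⟩

end Pool.Agent.V8H91.ND
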